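import Pool.Agent.U722.FF.Stm

set_option autoImplicit false

/-! Project FF, package EXT: extensions of modules with finite free resolutions. -/

namespace Pool.Agent.U460.FFP

open TH57.FF U722.FF

theorem FR_mono {R : Type} [Ring R] : ∀ (n : ℕ) (M : Type) [AddCommGroup M] [Module R M],
    FR R n M → FR R (n + 1) M
  | 0, M, _, _, h => by
    obtain ⟨h1, h2⟩ := h
    let b := Module.Free.chooseBasis R M
    refine ⟨Module.Free.ChooseBasisIndex R M, inferInstance, b.equivFun.symm.toLinearMap,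
      b.equivFun.symm.surjective, ?_⟩
    have hk : LinearMap.ker b.equivFun.symm.toLinearMap = ⊥ := LinearEquiv.ker _
    rw [hk]
    exact ⟨inferInstance, Module.Free.of_subsingleton _ _⟩
  | n + 1, M, _, _, h => by
    obtain ⟨ι, i1, f, hf, h1⟩ := h
    exact ⟨ι, i1, f, hf, FR_mono n _ h1⟩

theorem FR_mono_le {R : Type} [Ring R] {n m : ℕ} (hnm : n ≤ m) (M : Type) [AddCommGroup M]
    [Module R M] (h : FR R n M) : FR R m M := by
  induction hnm with
  | refl => exact h
  | step _ ih => exact FR_mono _ _ ih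

theorem EXT_aux {R : Type} [Ring R] : ∀ (n : ℕ) (A B C : Type) [AddCommGroup A] [Module R A]
    [AddCommGroup B] [Module R B] [AddCommGroup C] [Module R C] (f : A →ₗ[R] B) (g : B →ₗ[R] C),
    Function.Injective f → Function.Surjective g → (∀ b, g b = 0 ↔ b ∈ LinearMap.range f) →
    FR R n A → FR R n C → FR R n B
  | 0, A, B, C, _, _, _, _, _, _, f, g, hf, hg, hex, hA, hC => by
    obtain ⟨a1, a2⟩ := hA
    obtain ⟨c1, c2⟩ := hC
    obtain ⟨s, hs⟩ := Module.projective_lifting_property g (LinearMap.id : C →ₗ[R] C) hg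
    have hs' : ∀ c, g (s c) = c := fun c => LinearMap.congr_fun hs c
    have hgf : ∀ a, g (f a) = 0 := fun a => (hex _).2 ⟨a, rfl⟩
    let e : (A × C) ≃ₗ[R] B := LinearEquiv.ofBijective (f.coprod s) (by
      constructor
      · rw [← LinearMap.ker_eq_bot, LinearMap.ker_eq_bot']
        rintro ⟨a, c⟩ h
        rw [LinearMap.coprod_apply] at h
        have h1 : g (f a + s c) = 0 := by rw [h, map_zero]
        rw [map_add, hgf, hs', zero_add] at h1
        subst h1
        rw [map_zero, add_zero] at h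
        have h2 : a = 0 := hf (by rw [h, map_zero])
        rw [h2]
        rfl
      · intro b
        have h1 : g (b - s (g b)) = 0 := by rw [map_sub, hs', sub_self]
        obtain ⟨a, ha⟩ := (hex _).1 h1
        refine ⟨(a, g b), ?_⟩
        rw [LinearMap.coprod_apply, ha]
        abel)
    exact ⟨Module.Finite.equiv e, Module.Free.of_equiv e⟩
  | n + 1, A, B, C, _, _, _, _, _, _, f, g, hf, hg, hex, hA, hC => by
    obtain ⟨ι, i1, a, ha, kA⟩ := hA
    obtain ⟨κ, i2, c, hc, kC⟩ := hC
    obtain ⟨c', hc'⟩ := Module.projective_lifting_property g c hg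
    have hc'' : ∀ x, g (c' x) = c x := fun x => LinearMap.congr_fun hc' x
    have hgf : ∀ a, g (f a) = 0 := fun a => (hex _).2 ⟨a, rfl⟩
    let e := LinearEquiv.sumArrowLequivProdArrow ι κ R R
    let b : (ι ⊕ κ → R) →ₗ[R] B := ((f ∘ₗ a).coprod c') ∘ₗ e.toLinearMap
    have hb : ∀ z, b z = f (a (e z).1) + c' (e z).2 := fun z => rfl
    have hbs : Function.Surjective b := by
      intro y
      obtain ⟨x2, hx2⟩ := hc (g y)
      have h1 : g (y - c' x2) = 0 := by rw [map_sub, hc'', hx2, sub_self]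
      obtain ⟨a', ha'⟩ := (hex _).1 h1
      obtain ⟨x1, hx1⟩ := ha a'
      refine ⟨e.symm (x1, x2), ?_⟩
      rw [hb, LinearEquiv.apply_symm_apply, hx1, ha']
      abel
    refine ⟨ι ⊕ κ, inferInstance, b, hbs, ?_⟩
    let i : (ι → R) →ₗ[R] (ι ⊕ κ → R) := e.symm.toLinearMap ∘ₗ LinearMap.inl R (ι → R) (κ → R)
    have hi : ∀ x, i x = e.symm (x, 0) := fun x => rfl
    let p : (ι ⊕ κ → R) →ₗ[R] (κ → R) := LinearMap.snd R (ι → R) (κ → R) ∘ₗ e.toLinearMap
    have hp : ∀ z, p z = (e z).2 := fun z => rfl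
    have hi' : ∀ x ∈ LinearMap.ker a, i x ∈ LinearMap.ker b := by
      intro x hx
      rw [LinearMap.mem_ker] at hx ⊢
      rw [hb, hi, LinearEquiv.apply_symm_apply, hx, map_zero, map_zero, add_zero]
    have hp' : ∀ z ∈ LinearMap.ker b, p z ∈ LinearMap.ker c := by
      intro z hz
      rw [LinearMap.mem_ker] at hz ⊢
      rw [hp, ← hc'']
      have h1 : g (b z) = 0 := by rw [hz, map_zero]
      rwa [hb, map_add, hgf, zero_add] at h1
    refine EXT_aux n (LinearMap.ker a) (LinearMap.ker b) (LinearMap.ker c) (i.restrict hi')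
      (p.restrict hp') ?_ ?_ ?_ kA kC
    · intro x y hxy
      have h1 : i x.1 = i y.1 := congrArg Subtype.val hxy
      rw [hi, hi] at h1
      have h2 := e.symm.injective h1
      exact Subtype.ext (congrArg Prod.fst h2)
    · rintro ⟨w, hw⟩
      rw [LinearMap.mem_ker] at hw
      have h1 : g (c' w) = 0 := by rw [hc'', hw]
      obtain ⟨a', ha'⟩ := (hex _).1 h1
      obtain ⟨x1, hx1⟩ := ha a'
      refine ⟨⟨e.symm (-x1, w), ?_⟩, ?_⟩
      · rw [LinearMap.mem_ker, hb, LinearEquiv.apply_symm_apply, map_neg, map_neg, hx1, ha']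
        abel
      · apply Subtype.ext
        change p (e.symm (-x1, w)) = w
        rw [hp, LinearEquiv.apply_symm_apply]
    · rintro ⟨z, hz⟩
      rw [LinearMap.mem_ker, hb] at hz
      constructor
      · intro h
        have h1 : (e z).2 = 0 := congrArg Subtype.val h
        rw [h1, map_zero, add_zero] at hz
        have h2 : a (e z).1 = 0 := hf (by rw [hz, map_zero])
        refine ⟨⟨(e z).1, h2⟩, ?_⟩
        apply Subtype.ext
        change i (e z).1 = z
        rw [hi, LinearEquiv.symm_apply_eq, ← h1]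
      · rintro ⟨⟨x, hx⟩, hxz⟩
        have h1 : i x = z := congrArg Subtype.val hxz
        apply Subtype.ext
        change p z = 0
        rw [hp, ← h1, hi, LinearEquiv.apply_symm_apply]

theorem t_EXT : S_EXT := by
  intro R _ A B C _ _ _ _ _ _ f g hf hg hex hA hC
  obtain ⟨n, hn⟩ := hA
  obtain ⟨m, hm⟩ := hC
  exact ⟨max n m, EXT_aux _ A B C f g hf hg hex (FR_mono_le (le_max_left _ _) _ hn)
    (FR_mono_le (le_max_right _ _) _ hm)⟩


end Pool.Agent.U460.FFP
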